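import Mathlib

/-!
# One-point extensions of finite spaces with distances in a distributive algebraic lattice

`L` is a distributive algebraic lattice, `θ` an involutive automorphism. A space is a set `Y` with
compact distances `d y y'` such that `d y y = ⊥`, `d y' y = θ (d y y')` and
`d x z ≤ d x y ⊔ d y z`. If `Y` is finite, `w i` are points of `Y` and `σ i` elements of `L` with
`d (w i) (w j) ≤ θ (σ i) ⊔ σ j`, then there is a one-point extension of `Y` such that the distance of
the new point to `w i` is at most `σ i` (`ext`).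
-/

set_option autoImplicit false

namespace Pool.Agent.Lib.MP_81b71e_al.Cd

universe u v

variable {L : Type u} [CompleteLattice L]

theorem compact_bot : IsCompactElement (⊥ : L) := by
  have h := CompleteLattice.isCompactElement_finsetSup (α := L) (∅ : Finset L) (f := id)
    (fun x hx => absurd hx (Finset.notMem_empty x))
  rwa [Finset.sup_empty] at h

theorem compact_sup {a b : L} (ha : IsCompactElement a) (hb : IsCompactElement b) :
    IsCompactElement (a ⊔ b) := by
  classical
  have h := CompleteLattice.isCompactElement_finsetSup (α := L) ({a, b} : Finset L) (f := id) (fun x hx => by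
    rcases Finset.mem_insert.1 hx with rfl | hx
    · exact ha
    · rw [Finset.mem_singleton.1 hx]
      exact hb)
  rwa [Finset.sup_insert, Finset.sup_singleton, id, id] at h

theorem compact_map (θ : L ≃o L) {a : L} (ha : IsCompactElement a) : IsCompactElement (θ a) := by
  rw [CompleteLattice.isCompactElement_iff_exists_le_sSup_of_le_sSup] at ha ⊢
  classical
  intro s hs
  obtain ⟨t, ht, hat⟩ := ha (θ.symm '' s) (by
    have h1 := θ.symm.monotone hs
    rw [θ.symm_apply_apply, θ.symm.map_sSup] at h1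
    rwa [sSup_image])
  refine ⟨t.image θ, ?_, ?_⟩
  · intro x hx
    rw [Finset.coe_image] at hx
    obtain ⟨y, hy, rfl⟩ := hx
    obtain ⟨z, hz, rfl⟩ := ht hy
    rwa [θ.apply_symm_apply]
  · have h1 := θ.monotone hat
    rw [map_finset_sup] at h1
    refine h1.trans (Finset.sup_le fun x hx => ?_)
    exact Finset.le_sup (f := id) (Finset.mem_image_of_mem θ hx)

section
variable [IsCompactlyGenerated L]

/-- compact elements below a join of two elements -/
theorem split {k x y : L} (hk : IsCompactElement k) (h : k ≤ x ⊔ y) :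
    ∃ a b, IsCompactElement a ∧ IsCompactElement b ∧ a ≤ x ∧ b ≤ y ∧ k ≤ a ⊔ b := by
  classical
  rw [CompleteLattice.isCompactElement_iff_exists_le_sSup_of_le_sSup] at hk
  obtain ⟨t, ht, hkt⟩ := hk ({c | IsCompactElement c ∧ c ≤ x} ∪ {c | IsCompactElement c ∧ c ≤ y}) (by
    rwa [sSup_union, sSup_compact_le_eq, sSup_compact_le_eq])
  refine ⟨(t.filter fun c => c ≤ x).sup id, (t.filter fun c => ¬ c ≤ x).sup id, ?_, ?_, ?_, ?_, ?_⟩
  · refine CompleteLattice.isCompactElement_finsetSup _ fun c hc => ?_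
    rcases ht (Finset.mem_filter.1 hc).1 with h1 | h1
    · exact h1.1
    · exact h1.1
  · refine CompleteLattice.isCompactElement_finsetSup _ fun c hc => ?_
    rcases ht (Finset.mem_filter.1 hc).1 with h1 | h1
    · exact h1.1
    · exact h1.1
  · exact Finset.sup_le fun c hc => (Finset.mem_filter.1 hc).2
  · refine Finset.sup_le fun c hc => ?_
    rcases ht (Finset.mem_filter.1 hc).1 with h1 | h1
    · exact absurd h1.2 (Finset.mem_filter.1 hc).2
    · exact h1.2
  · refine hkt.trans (Finset.sup_le fun c hc => ?_)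
    by_cases hcx : c ≤ x
    · exact le_sup_of_le_left (Finset.le_sup (f := id) (Finset.mem_filter.2 ⟨hc, hcx⟩))
    · exact le_sup_of_le_right (Finset.le_sup (f := id) (Finset.mem_filter.2 ⟨hc, hcx⟩))

/-- the refinement property -/
theorem refine' (hd : ∀ x y z : L, (x ⊔ y) ⊓ (x ⊔ z) ≤ x ⊔ y ⊓ z) {u x δ : L}
    (hu : IsCompactElement u) (h : u ≤ x ⊔ δ) :
    ∃ v, IsCompactElement v ∧ v ≤ u ∧ v ≤ x ∧ u ≤ v ⊔ δ := by
  have h1 : u ≤ δ ⊔ u ⊓ x :=
    (le_inf le_sup_right (h.trans_eq (sup_comm x δ))).trans (hd δ u x)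
  obtain ⟨a, b, _, hb, ha', hb', hab⟩ := split hu h1
  refine ⟨b, hb, hb'.trans inf_le_left, hb'.trans inf_le_right, hab.trans ?_⟩
  rw [sup_comm]
  exact sup_le_sup_left ha' b

/-- Closing a compact element under the triangle inequality. -/
theorem closure (hd : ∀ x y z : L, (x ⊔ y) ⊓ (x ⊔ z) ≤ x ⊔ y ⊓ z) {Y : Type} [DecidableEq Y]
    (d : Y → Y → L) (E : Y → L) (hE : ∀ y y', E y ≤ E y' ⊔ d y' y) (A : Finset Y) :
    ∀ y ∈ A, ∀ u : L, IsCompactElement u → u ≤ E y →
      ∃ e : Y → L, (∀ z, IsCompactElement (e z)) ∧ (∀ z, e z ≤ E z) ∧ (∀ z, e z ≤ u) ∧ u ≤ e y ∧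
        ∀ z ∈ A, ∀ z' ∈ A, e z ≤ e z' ⊔ d z' z := by
  classical
  induction A using Finset.strongInduction with
  | H A ih =>
    intro y hy u hu huE
    have hlt : A.erase y ⊂ A := Finset.erase_ssubset hy
    have hg : ∀ z', ∃ g : Y → L, z' ∈ A.erase y → ((∀ z, IsCompactElement (g z)) ∧
        (∀ z, g z ≤ E z) ∧ (∀ z, g z ≤ u) ∧ u ≤ g z' ⊔ d z' y ∧
        ∀ z ∈ A.erase y, ∀ z'' ∈ A.erase y, g z ≤ g z'' ⊔ d z'' z) := by
      intro z'
      by_cases hz' : z' ∈ A.erase y
      · obtain ⟨v, hv, hvu, hvE, huv⟩ := refine' hd hu (huE.trans (hE y z'))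
        obtain ⟨g, h1, h2, h3, h4, h5⟩ := ih _ hlt z' hz' v hv hvE
        exact ⟨g, fun _ => ⟨h1, h2, fun z => (h3 z).trans hvu, huv.trans (sup_le_sup_right h4 _),
          h5⟩⟩
      · exact ⟨fun _ => ⊥, fun h => absurd h hz'⟩
    choose g hg using hg
    obtain ⟨e, he1, he2⟩ : ∃ e : Y → L, e y = u ∧
        ∀ z, z ≠ y → e z = (A.erase y).sup fun z' => g z' z :=
      ⟨fun z => if z = y then u else (A.erase y).sup fun z' => g z' z, if_pos rfl,
        fun z hz => if_neg hz⟩
    refine ⟨e, fun z => ?_, fun z => ?_, fun z => ?_, he1.ge, ?_⟩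
    · by_cases hz : z = y
      · rw [hz, he1]
        exact hu
      · rw [he2 z hz]
        exact CompleteLattice.isCompactElement_finsetSup _ fun z' hz' => (hg z' hz').1 z
    · by_cases hz : z = y
      · rw [hz, he1]
        exact huE
      · rw [he2 z hz]
        exact Finset.sup_le fun z' hz' => (hg z' hz').2.1 z
    · by_cases hz : z = y
      · rw [hz, he1]
      · rw [he2 z hz]
        exact Finset.sup_le fun z' hz' => (hg z' hz').2.2.1 z
    · intro z hz z' hz'
      by_cases h1 : z = y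
      · by_cases h2 : z' = y
        · rw [h1, h2]
          exact le_sup_left
        · rw [h1, he1, he2 z' h2]
          have h3 : z' ∈ A.erase y := Finset.mem_erase.2 ⟨h2, hz'⟩
          refine (hg z' h3).2.2.2.1.trans (sup_le_sup_right ?_ _)
          exact Finset.le_sup (f := fun z'' => g z'' z') h3
      · by_cases h2 : z' = y
        · rw [he2 z h1, h2, he1]
          exact le_sup_of_le_left (Finset.sup_le fun z'' hz'' => (hg z'' hz'').2.2.1 z)
        · rw [he2 z h1, he2 z' h2]
          refine Finset.sup_le fun z'' hz'' => ?_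
          refine ((hg z'' hz'').2.2.2.2 z (Finset.mem_erase.2 ⟨h1, hz⟩) z'
            (Finset.mem_erase.2 ⟨h2, hz'⟩)).trans (sup_le_sup_right ?_ _)
          exact Finset.le_sup (f := fun z'' => g z'' z') hz''

omit [IsCompactlyGenerated L] in
theorem le_sup_inf_finset (hd : ∀ x y z : L, (x ⊔ y) ⊓ (x ⊔ z) ≤ x ⊔ y ⊓ z) {ι : Type v}
    (s : Finset ι) (f : ι → L) {c x : L} (h : ∀ i ∈ s, c ≤ x ⊔ f i) : c ≤ x ⊔ s.inf f := by
  classical
  induction s using Finset.induction_on with
  | empty => rw [Finset.inf_empty, sup_top_eq]; exact le_top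
  | insert a s _ ih =>
    rw [Finset.inf_insert]
    refine le_trans (le_inf ?_ ?_) (hd x (f a) (s.inf f))
    · exact h a (Finset.mem_insert_self a s)
    · exact ih fun i hi => h i (Finset.mem_insert_of_mem hi)

/-- **One-point extensions.** -/
theorem ext (hd : ∀ x y z : L, (x ⊔ y) ⊓ (x ⊔ z) ≤ x ⊔ y ⊓ z) (θ : L ≃o L)
    (hθ : ∀ x, θ (θ x) = x) {Y : Type} [Fintype Y] (d : Y → Y → L)
    (hc : ∀ x y, IsCompactElement (d x y)) (h0 : ∀ y, d y y = ⊥) (hs : ∀ x y, d y x = θ (d x y))
    (ht : ∀ x y z, d x z ≤ d x y ⊔ d y z) {ι : Type v} (s : Finset ι) (w : ι → Y) (σ : ι → L)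
    (hw : ∀ i ∈ s, ∀ j ∈ s, d (w i) (w j) ≤ θ (σ i) ⊔ σ j) :
    ∃ e : Y → L, (∀ y, IsCompactElement (e y)) ∧ (∀ y y', e y ≤ e y' ⊔ d y' y) ∧
      (∀ y y', d y y' ≤ θ (e y) ⊔ e y') ∧ ∀ i ∈ s, e (w i) ≤ σ i := by
  classical
  set E : Y → L := fun y => s.inf fun i => σ i ⊔ d (w i) y with hEdef
  have hE1 : ∀ y y', E y ≤ E y' ⊔ d y' y := by
    intro y y'
    rw [sup_comm]
    refine le_sup_inf_finset hd s _ fun i hi => ?_
    have h1 : E y ≤ σ i ⊔ d (w i) y := Finset.inf_le hi
    refine h1.trans (sup_le ?_ ?_)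
    · exact le_sup_of_le_right le_sup_left
    · refine (ht (w i) y' y).trans (sup_le ?_ ?_)
      · exact le_sup_of_le_right le_sup_right
      · exact le_sup_left
  have hE2 : ∀ y y', d y y' ≤ θ (E y) ⊔ E y' := by
    intro y y'
    refine le_sup_inf_finset hd s _ fun j hj => ?_
    rw [sup_comm, hEdef, map_finset_inf]
    refine le_sup_inf_finset hd s _ fun i hi => ?_
    change d y y' ≤ σ j ⊔ d (w j) y' ⊔ θ (σ i ⊔ d (w i) y)
    rw [map_sup, ← hs]
    refine (ht y (w i) y').trans (sup_le ?_ ?_)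
    · exact le_sup_of_le_right le_sup_right
    · refine (ht (w i) (w j) y').trans (sup_le ((hw i hi j hj).trans (sup_le ?_ ?_)) ?_)
      · exact le_sup_of_le_right le_sup_left
      · exact le_sup_of_le_left le_sup_left
      · exact le_sup_of_le_left le_sup_right
  -- compact approximations
  have hab : ∀ y y', ∃ a b, IsCompactElement a ∧ IsCompactElement b ∧ a ≤ E y ∧ b ≤ E y' ∧
      d y y' ≤ θ a ⊔ b := by
    intro y y'
    obtain ⟨a, b, ha, hb, ha', hb', h⟩ := split (hc y y') (hE2 y y')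
    refine ⟨θ a, b, compact_map θ ha, hb, ?_, hb', ?_⟩
    · have := θ.monotone ha'
      rwa [hθ] at this
    · rwa [hθ]
  choose a b ha hb haE hbE hab using hab
  set e₀ : Y → L := fun y => (Finset.univ.sup fun y' => a y y') ⊔ Finset.univ.sup fun y' => b y' y
    with he₀
  have he₀c : ∀ y, IsCompactElement (e₀ y) := fun y =>
    compact_sup (CompleteLattice.isCompactElement_finsetSup _ fun y' _ => ha y y')
      (CompleteLattice.isCompactElement_finsetSup _ fun y' _ => hb y' y)
  have he₀E : ∀ y, e₀ y ≤ E y := fun y =>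
    sup_le (Finset.sup_le fun y' _ => haE y y') (Finset.sup_le fun y' _ => hbE y' y)
  have hcl := fun y => closure hd d E hE1 Finset.univ y (Finset.mem_univ y) (e₀ y) (he₀c y) (he₀E y)
  choose g hg1 hg2 hg3 hg4 hg5 using hcl
  refine ⟨fun y => Finset.univ.sup fun y' => g y' y, fun y => ?_, fun y y' => ?_, fun y y' => ?_,
    fun i hi => ?_⟩
  · exact CompleteLattice.isCompactElement_finsetSup _ fun y' _ => hg1 y' y
  · refine Finset.sup_le fun z _ => (hg5 z y (Finset.mem_univ _) y' (Finset.mem_univ _)).trans ?_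
    exact sup_le_sup_right (Finset.le_sup (f := fun z => g z y') (Finset.mem_univ z)) _
  · have h1 : e₀ y ≤ Finset.univ.sup fun z => g z y :=
      (hg4 y).trans (Finset.le_sup (f := fun z => g z y) (Finset.mem_univ y))
    have h2 : e₀ y' ≤ Finset.univ.sup fun z => g z y' :=
      (hg4 y').trans (Finset.le_sup (f := fun z => g z y') (Finset.mem_univ y'))
    refine (hab y y').trans (sup_le ?_ ?_)
    · refine le_sup_of_le_left (θ.monotone (le_trans ?_ h1))
      exact le_sup_of_le_left (Finset.le_sup (f := fun z => a y z) (Finset.mem_univ y'))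
    · refine le_sup_of_le_right (le_trans ?_ h2)
      exact le_sup_of_le_right (Finset.le_sup (f := fun z => b z y') (Finset.mem_univ y))
  · have h1 : E (w i) ≤ σ i := by
      refine (Finset.inf_le hi).trans ?_
      rw [h0, sup_bot_eq]
    exact (Finset.sup_le fun z _ => hg2 z (w i)).trans h1

end

end Pool.Agent.Lib.MP_81b71e_al.Cd
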