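import Mathlib

/-!
# Transfinite constructions

`wbuild`: building a function on a well-ordered set by approximations. `exists_index`: an indexing of
the finite labelled subsets of a well-ordered set by its own elements, such that every such subset is
the subset attached to some later element.
-/

set_option autoImplicit false

namespace Pool.Agent.Lib.MP_81b71e_al.Cd

universe u v

/-- Building a function on a well-ordered set by approximations. -/
theorem wbuild {W : Type u} [LinearOrder W] [WellFoundedLT W] {X : Type v} [Nonempty X]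
    (P : W → (W → X) → Prop) (hloc : ∀ x q q', (∀ y ≤ x, q y = q' y) → P x q → P x q')
    (hstep : ∀ x q, (∀ y < x, P y q) → ∃ v, P x (Function.update q x v)) :
    ∃ q, ∀ x, P x q := by
  classical
  have hX : ∀ x q, ∃ v, (∀ y < x, P y q) → P x (Function.update q x v) := by
    intro x q
    by_cases h : ∀ y < x, P y q
    · obtain ⟨v, hv⟩ := hstep x q h
      exact ⟨v, fun _ => hv⟩
    · exact ⟨Classical.arbitrary X, fun h' => absurd h' h⟩
  choose V hV using hX
  let F : ∀ x : W, (∀ y, y < x → X) → X :=
    fun x prev => V x (fun y => if h : y < x then prev y h else Classical.arbitrary X)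
  let q : W → X := (wellFounded_lt (α := W)).fix F
  have hq : ∀ x, q x = V x (fun y => if y < x then q y else Classical.arbitrary X) := by
    intro x
    have h1 : q x = F x (fun y _ => q y) := (wellFounded_lt (α := W)).fix_eq F x
    rw [h1]
    show V x (fun y => if h : y < x then q y else Classical.arbitrary X) = _
    congr 1
  refine ⟨q, fun x => ?_⟩
  induction x using WellFoundedLT.induction with
  | ind x ih =>
    have h1 : ∀ y < x, P y (fun y => if y < x then q y else Classical.arbitrary X) := by
      intro y hy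
      refine hloc y q _ (fun z hz => ?_) (ih y hy)
      rw [if_pos (hz.trans_lt hy)]
    refine hloc x _ q (fun y hy => ?_) (hV x _ h1)
    rcases hy.lt_or_eq with hy | rfl
    · rw [Function.update_of_ne hy.ne, if_pos hy]
    · rw [Function.update_self, hq]

open Cardinal in
/-- Every finite labelled subset is attached to a later element. -/
theorem exists_index (K : Type u) [Nonempty K] :
    ∃ (W : Type u) (_ : LinearOrder W) (_ : WellFoundedLT W) (_ : Nonempty W)
      (g : W → Finset (W × K)), ∀ s : Finset (W × K), ∃ x, g x = s ∧ ∀ p ∈ s, p.1 < x := by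
  classical
  set κ : Cardinal.{u} := max #K ℵ₀ with hκ
  have hκ0 : ℵ₀ ≤ κ := le_max_right _ _
  have hW : #(κ.ord.ToType) = κ := mk_ord_toType κ
  have h1 : #(κ.ord.ToType × K) = κ := by
    rw [Cardinal.mk_prod, Cardinal.lift_id, Cardinal.lift_id, hW]
    exact Cardinal.mul_eq_left hκ0 (le_max_left _ _) (Cardinal.mk_ne_zero K)
  have hinf : Infinite (κ.ord.ToType × K) := Cardinal.infinite_iff.2 (hκ0.trans_eq h1.symm)
  have h2 : #(Finset (κ.ord.ToType × K)) = κ := (Cardinal.mk_finset_of_infinite _).trans h1
  have h3 : #(Finset (κ.ord.ToType × K) × κ.ord.ToType) = κ := by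
    rw [Cardinal.mk_prod, Cardinal.lift_id, Cardinal.lift_id, hW, h2]
    exact Cardinal.mul_eq_self hκ0
  obtain ⟨e⟩ := Cardinal.eq.1 (hW.trans h3.symm)
  have hmax : NoMaxOrder κ.ord.ToType := Cardinal.noMaxOrder hκ0
  have hne : Nonempty κ.ord.ToType := by
    rw [← Cardinal.mk_ne_zero_iff, hW]
    exact (Cardinal.aleph0_pos.trans_le hκ0).ne'
  refine ⟨κ.ord.ToType, inferInstance, inferInstance, hne, fun x => (e x).1, fun s => ?_⟩
  by_contra hcon
  push Not at hcon
  have h4 : ∀ w, ∃ p ∈ s, e.symm (s, w) ≤ p.1 := by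
    intro w
    exact hcon (e.symm (s, w)) (by rw [Equiv.apply_symm_apply])
  obtain ⟨m, hm⟩ : ∃ m, ∀ p ∈ s, p.1 < m := by
    obtain ⟨m, hm⟩ := (s.image Prod.fst).exists_le
    obtain ⟨m', hm'⟩ := exists_gt m
    exact ⟨m', fun p hp => (hm p.1 (Finset.mem_image_of_mem _ hp)).trans_lt hm'⟩
  have h5 : ∀ w, e.symm (s, w) < m := by
    intro w
    obtain ⟨p, hp, h⟩ := h4 w
    exact h.trans_lt (hm p hp)
  have h6 : #(κ.ord.ToType) ≤ #(Set.Iio m) :=
    Cardinal.mk_le_of_injective (f := fun w => (⟨e.symm (s, w), h5 w⟩ : Set.Iio m)) (by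
      intro w w' h
      have h7 : e.symm (s, w) = e.symm (s, w') := congrArg Subtype.val h
      exact (Prod.ext_iff.1 (e.symm.injective h7)).2)
  have h8 : #(Set.Iio m) < κ := by simpa using Cardinal.mk_Iio_lt m
  rw [hW] at h6
  exact absurd h8 (not_lt.2 h6)

end Pool.Agent.Lib.MP_81b71e_al.Cd
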