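import Pool.Agent.Lib.MP_81b71e_al.Cd.Ext
import Pool.Agent.Lib.MP_81b71e_al.Cd.Wf

/-!
# The space over a distributive algebraic lattice whose compact elements are closed under meets

`L` is a distributive algebraic lattice in which the meet of two compact elements is compact and `θ`
an involutive automorphism. There is a well-ordered space with compact distances in which each point
`x` has a finite set `G x` of gates, i.e. smaller points with labels, that determine the distances of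
`x` to all smaller points (`exists_gate_space`).
-/

set_option autoImplicit false

namespace Pool.Agent.Lib.MP_81b71e_al.Cd

universe u v

variable {L : Type u} [CompleteLattice L]

/-- The type of compact elements. -/
abbrev K (L : Type u) [CompleteLattice L] : Type u := {c : L // IsCompactElement c}

/-- A nonempty finite meet of compact elements is compact. -/
theorem compact_inf (hm : ∀ a b : L, IsCompactElement a → IsCompactElement b →
    IsCompactElement (a ⊓ b)) {ι : Type v} (s : Finset ι) (hs : s.Nonempty) (f : ι → L)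
    (hf : ∀ i ∈ s, IsCompactElement (f i)) : IsCompactElement (s.inf f) := by
  classical
  induction hs using Finset.Nonempty.cons_induction with
  | singleton a =>
    rw [Finset.inf_singleton]
    exact hf a (Finset.mem_singleton_self a)
  | cons a s ha _ ih =>
    rw [Finset.inf_cons]
    exact hm _ _ (hf a (Finset.mem_cons_self a s)) (ih fun i hi => hf i (Finset.mem_cons_of_mem hi))

section
variable {W : Type v}

/-- The row given by gates satisfies the conditions for a new point. -/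
theorem gate_row (hd : ∀ x y z : L, (x ⊔ y) ⊓ (x ⊔ z) ≤ x ⊔ y ⊓ z) (θ : L ≃o L)
    (d : W → W → L) (T : Set W) (hs : ∀ x y, d y x = θ (d x y))
    (ht : ∀ x ∈ T, ∀ y ∈ T, ∀ z ∈ T, d x z ≤ d x y ⊔ d y z) (s : Finset (W × K L))
    (hsT : ∀ p ∈ s, p.1 ∈ T)
    (hw : ∀ p ∈ s, ∀ q ∈ s, d p.1 q.1 ≤ θ (p.2 : L) ⊔ (q.2 : L)) :
    (∀ y ∈ T, ∀ y' ∈ T, (s.inf fun p => (p.2 : L) ⊔ d p.1 y) ≤
      (s.inf fun p => (p.2 : L) ⊔ d p.1 y') ⊔ d y' y) ∧
    ∀ y ∈ T, ∀ y' ∈ T, d y y' ≤ θ (s.inf fun p => (p.2 : L) ⊔ d p.1 y) ⊔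
      s.inf fun p => (p.2 : L) ⊔ d p.1 y' := by
  constructor
  · intro y hy y' hy'
    rw [sup_comm]
    refine le_sup_inf_finset hd s _ fun p hp => ?_
    have h1 : (s.inf fun p => (p.2 : L) ⊔ d p.1 y) ≤ (p.2 : L) ⊔ d p.1 y := Finset.inf_le hp
    refine h1.trans (sup_le ?_ ?_)
    · exact le_sup_of_le_right le_sup_left
    · refine (ht p.1 (hsT p hp) y' hy' y hy).trans (sup_le ?_ ?_)
      · exact le_sup_of_le_right le_sup_right
      · exact le_sup_left
  · intro y hy y' hy'
    refine le_sup_inf_finset hd s _ fun q hq => ?_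
    rw [sup_comm, map_finset_inf]
    refine le_sup_inf_finset hd s _ fun p hp => ?_
    change d y y' ≤ (q.2 : L) ⊔ d q.1 y' ⊔ θ ((p.2 : L) ⊔ d p.1 y)
    rw [map_sup, ← hs]
    refine (ht y hy p.1 (hsT p hp) y' hy').trans (sup_le ?_ ?_)
    · exact le_sup_of_le_right le_sup_right
    · refine (ht p.1 (hsT p hp) q.1 (hsT q hq) y' hy').trans
        (sup_le ((hw p hp q hq).trans (sup_le ?_ ?_)) ?_)
      · exact le_sup_of_le_right le_sup_left
      · exact le_sup_of_le_left le_sup_left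
      · exact le_sup_of_le_left le_sup_right

variable [LinearOrder W]

/-- The distances of the space whose distances from `x` to smaller points are `E x`. -/
noncomputable def wdist (θ : L ≃o L) (E : W → W → L) (x y : W) : L :=
  if x = y then ⊥ else if y < x then E x y else θ (E y x)

theorem wdist_self (θ : L ≃o L) (E : W → W → L) (x : W) : wdist θ E x x = ⊥ := if_pos rfl

theorem wdist_gt (θ : L ≃o L) (E : W → W → L) {x y : W} (h : y < x) : wdist θ E x y = E x y := by
  rw [wdist, if_neg h.ne', if_pos h]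

theorem wdist_lt (θ : L ≃o L) (E : W → W → L) {x y : W} (h : x < y) :
    wdist θ E x y = θ (E y x) := by
  rw [wdist, if_neg h.ne, if_neg (not_lt.2 h.le)]

theorem wdist_symm (θ : L ≃o L) (hθ : ∀ x, θ (θ x) = x) (E : W → W → L) (x y : W) :
    wdist θ E y x = θ (wdist θ E x y) := by
  rcases lt_trichotomy x y with h | h | h
  · rw [wdist_lt θ E h, wdist_gt θ E h, hθ]
  · rw [h, wdist_self, map_bot]
  · rw [wdist_gt θ E h, wdist_lt θ E h]

theorem wdist_congr (θ : L ≃o L) {E E' : W → W → L} {x y : W} (hx : E x = E' x)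
    (hy : E y = E' y) : wdist θ E x y = wdist θ E' x y := by
  rw [wdist, wdist, hx, hy]

/-- valid sets of gates below `x` -/
def Valid (θ : L ≃o L) (E : W → W → L) (x : W) (s : Finset (W × K L)) : Prop :=
  s.Nonempty ∧ (∀ p ∈ s, p.1 < x) ∧
    ∀ p ∈ s, ∀ q ∈ s, wdist θ E p.1 q.1 ≤ θ (p.2 : L) ⊔ (q.2 : L)

theorem Valid.congr {θ : L ≃o L} {E E' : W → W → L} {x : W} {s : Finset (W × K L)}
    (h : ∀ y < x, E y = E' y) (hs : Valid θ E x s) : Valid θ E' x s := by
  refine ⟨hs.1, hs.2.1, fun p hp q hq => ?_⟩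
  rw [← wdist_congr θ (h _ (hs.2.1 p hp)) (h _ (hs.2.1 q hq))]
  exact hs.2.2 p hp q hq

/-- The property of the approximations. -/
def Ok (θ : L ≃o L) (g : W → Finset (W × K L)) (x : W) (E : W → W → L) : Prop :=
  (∀ y ≤ x, ∀ z ≤ x, IsCompactElement (wdist θ E y z)) ∧
  (∀ y ≤ x, ∀ z ≤ x, ∀ t ≤ x, wdist θ E y t ≤ wdist θ E y z ⊔ wdist θ E z t) ∧
  ((∀ y, ¬ y < x) ∨ ∃ s, Valid θ E x s ∧
    (∀ y < x, E x y = s.inf fun p => (p.2 : L) ⊔ wdist θ E p.1 y) ∧ (Valid θ E x (g x) → s = g x))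

theorem Ok.congr {θ : L ≃o L} {g : W → Finset (W × K L)} {x : W} {E E' : W → W → L}
    (h : ∀ y ≤ x, E y = E' y) (hE : Ok θ g x E) : Ok θ g x E' := by
  obtain ⟨h1, h2, h3⟩ := hE
  refine ⟨fun y hy z hz => ?_, fun y hy z hz t ht => ?_, ?_⟩
  · rw [← wdist_congr θ (h y hy) (h z hz)]
    exact h1 y hy z hz
  · rw [← wdist_congr θ (h y hy) (h z hz), ← wdist_congr θ (h y hy) (h t ht),
      ← wdist_congr θ (h z hz) (h t ht)]
    exact h2 y hy z hz t ht
  · rcases h3 with h3 | ⟨s, hs, hs2, hs3⟩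
    · exact Or.inl h3
    · refine Or.inr ⟨s, hs.congr fun y hy => h y hy.le, fun y hy => ?_, fun hv => ?_⟩
      · rw [← h x le_rfl, hs2 y hy]
        refine Finset.inf_congr rfl fun p hp => ?_
        rw [wdist_congr θ (h p.1 (hs.2.1 p hp).le) (h y hy.le)]
      · exact hs3 (hv.congr fun y hy => (h y hy.le).symm)

theorem Ok.step (hd : ∀ x y z : L, (x ⊔ y) ⊓ (x ⊔ z) ≤ x ⊔ y ⊓ z)
    (hm : ∀ a b : L, IsCompactElement a → IsCompactElement b → IsCompactElement (a ⊓ b))
    {θ : L ≃o L} (hθ : ∀ x, θ (θ x) = x) (g : W → Finset (W × K L)) (x : W) (E : W → W → L)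
    (hE : ∀ y < x, Ok θ g y E) : ∃ e, Ok θ g x (Function.update E x e) := by
  classical
  by_cases hmin : ∀ y, ¬ y < x
  · have hx : ∀ y ≤ x, y = x := fun y hy => hy.lt_or_eq.resolve_left (hmin y)
    refine ⟨fun _ => ⊥, fun y hy z hz => ?_, fun y hy z hz t ht => ?_, Or.inl hmin⟩
    · rw [hx y hy, hx z hz, wdist_self]
      exact compact_bot
    · rw [hx y hy, hx z hz, hx t ht, wdist_self]
      exact bot_le
  push Not at hmin
  obtain ⟨y₀, hy₀⟩ := hmin
  have hc : ∀ y < x, ∀ z < x, IsCompactElement (wdist θ E y z) := fun y hy z hz =>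
    (hE (max y z) (max_lt hy hz)).1 y (le_max_left _ _) z (le_max_right _ _)
  have ht : ∀ y < x, ∀ z < x, ∀ t < x, wdist θ E y t ≤ wdist θ E y z ⊔ wdist θ E z t :=
    fun y hy z hz t ht => (hE (max y (max z t)) (max_lt hy (max_lt hz ht))).2.1 y
      (le_max_left _ _) z ((le_max_left _ _).trans (le_max_right _ _)) t
      ((le_max_right _ _).trans (le_max_right _ _))
  obtain ⟨s, hs, hsg⟩ : ∃ s, Valid θ E x s ∧ (Valid θ E x (g x) → s = g x) := by
    by_cases hg : Valid θ E x (g x)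
    · exact ⟨g x, hg, fun _ => rfl⟩
    · refine ⟨{(y₀, ⟨⊥, compact_bot⟩)}, ⟨Finset.singleton_nonempty _, ?_, ?_⟩,
        fun h => absurd h hg⟩
      · intro p hp
        rw [Finset.mem_singleton.1 hp]
        exact hy₀
      · intro p hp q hq
        rw [Finset.mem_singleton.1 hp, Finset.mem_singleton.1 hq, wdist_self]
        exact bot_le
  obtain ⟨hr1, hr2⟩ := gate_row hd θ (wdist θ E) (Set.Iio x) (wdist_symm θ hθ E)
    ht s hs.2.1 hs.2.2
  set e : W → L := fun y => s.inf fun p => (p.2 : L) ⊔ wdist θ E p.1 y with he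
  have hec : ∀ y < x, IsCompactElement (e y) := fun y hy =>
    compact_inf hm s hs.1 _ fun p hp => compact_sup p.2.2 (hc p.1 (hs.2.1 p hp) y hy)
  have hu : ∀ y < x, E y = Function.update E x e y := fun y hy => by
    rw [Function.update_of_ne hy.ne]
  have ho : ∀ y < x, ∀ z < x, wdist θ (Function.update E x e) y z = wdist θ E y z :=
    fun y hy z hz => (wdist_congr θ (hu y hy) (hu z hz)).symm
  have hn : ∀ y < x, wdist θ (Function.update E x e) x y = e y := by
    intro y hy
    rw [wdist_gt _ _ hy, Function.update_self]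
  have hn' : ∀ y < x, wdist θ (Function.update E x e) y x = θ (e y) := by
    intro y hy
    rw [wdist_lt _ _ hy, Function.update_self]
  refine ⟨e, fun y hy z hz => ?_, fun y hy z hz t ht' => ?_, Or.inr ⟨s, hs.congr hu, ?_, ?_⟩⟩
  · rcases hy.lt_or_eq with hy | rfl
    · rcases hz.lt_or_eq with hz | rfl
      · rw [ho y hy z hz]
        exact hc y hy z hz
      · rw [hn' y hy]
        exact compact_map θ (hec y hy)
    · rcases hz.lt_or_eq with hz | rfl
      · rw [hn z hz]
        exact hec z hz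
      · rw [wdist_self]
        exact compact_bot
  · rcases hy.lt_or_eq with hy | rfl
    · rcases hz.lt_or_eq with hz | rfl
      · rcases ht'.lt_or_eq with ht' | rfl
        · rw [ho y hy z hz, ho y hy t ht', ho z hz t ht']
          exact ht y hy z hz t ht'
        · rw [ho y hy z hz, hn' y hy, hn' z hz]
          have h3 := θ.monotone (hr1 y hy z hz)
          rw [map_sup, ← wdist_symm θ hθ] at h3
          exact h3.trans_eq (sup_comm _ _)
      · rcases ht'.lt_or_eq with ht' | rfl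
        · rw [ho y hy t ht', hn' y hy, hn t ht']
          exact hr2 y hy t ht'
        · exact le_sup_left
    · rcases ht'.lt_or_eq with ht' | rfl
      · rcases hz.lt_or_eq with hz | rfl
        · rw [hn t ht', hn z hz, ho z hz t ht']
          exact hr1 t ht' z hz
        · exact le_sup_right
      · rw [wdist_self]
        exact bot_le
  · intro y hy
    rw [Function.update_self]
    refine Finset.inf_congr rfl fun p hp => ?_
    rw [ho p.1 (hs.2.1 p hp) y hy]
  · intro hv
    exact hsg (hv.congr fun y hy => (hu y hy).symm)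

end

/-- **The space with gates.** -/
theorem exists_gate_space (hd : ∀ x y z : L, (x ⊔ y) ⊓ (x ⊔ z) ≤ x ⊔ y ⊓ z)
    (hm : ∀ a b : L, IsCompactElement a → IsCompactElement b → IsCompactElement (a ⊓ b))
    (θ : L ≃o L) (hθ : ∀ x, θ (θ x) = x) :
    ∃ (W : Type u) (_ : LinearOrder W) (_ : WellFoundedLT W) (_ : Nonempty W) (d : W → W → L)
      (G : W → Finset (W × K L)), (∀ x y, IsCompactElement (d x y)) ∧ (∀ x, d x x = ⊥) ∧
      (∀ x y, d y x = θ (d x y)) ∧ (∀ x y z, d x z ≤ d x y ⊔ d y z) ∧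
      (∀ x, ∀ p ∈ G x, p.1 < x) ∧
      (∀ x, ∀ p ∈ G x, ∀ q ∈ G x, d p.1 q.1 ≤ θ (p.2 : L) ⊔ (q.2 : L)) ∧
      (∀ x, ∀ y < x, d x y = (G x).inf fun p => (p.2 : L) ⊔ d p.1 y) ∧
      ∀ s : Finset (W × K L), s.Nonempty →
        (∀ p ∈ s, ∀ q ∈ s, d p.1 q.1 ≤ θ (p.2 : L) ⊔ (q.2 : L)) →
        ∃ x, G x = s ∧ ∀ p ∈ s, p.1 < x := by
  classical
  have hK : Nonempty (K L) := ⟨⟨⊥, compact_bot⟩⟩
  obtain ⟨W, h1, h2, h3, g, hg⟩ := exists_index (K L)
  obtain ⟨E, hE⟩ := wbuild (Ok θ g) (fun x q q' h hq => hq.congr h)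
    (fun x q hq => Ok.step hd hm hθ g x q hq)
  have hG : ∀ x, ∃ s : Finset (W × K L), (∀ p ∈ s, p.1 < x) ∧
      (∀ p ∈ s, ∀ q ∈ s, wdist θ E p.1 q.1 ≤ θ (p.2 : L) ⊔ (q.2 : L)) ∧
      (∀ y < x, wdist θ E x y = s.inf fun p => (p.2 : L) ⊔ wdist θ E p.1 y) ∧
      (Valid θ E x (g x) → s = g x) := by
    intro x
    rcases (hE x).2.2 with hx | ⟨s, hs, hs2, hs3⟩
    · refine ⟨∅, fun p hp => absurd hp (Finset.notMem_empty p),
        fun p hp => absurd hp (Finset.notMem_empty p), fun y hy => absurd hy (hx y), fun hv => ?_⟩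
      obtain ⟨p, hp⟩ := hv.1
      exact absurd (hv.2.1 p hp) (hx p.1)
    · refine ⟨s, hs.2.1, hs.2.2, fun y hy => ?_, hs3⟩
      rw [wdist_gt θ E hy]
      exact hs2 y hy
  choose G hG1 hG2 hG3 hG4 using hG
  refine ⟨W, h1, h2, h3, wdist θ E, G, fun x y => ?_, wdist_self θ E, wdist_symm θ hθ E,
    fun x y z => ?_, hG1, hG2, hG3, fun s hs hw => ?_⟩
  · exact (hE (max x y)).1 x (le_max_left _ _) y (le_max_right _ _)
  · exact (hE (max x (max y z))).2.1 x (le_max_left _ _) y
      ((le_max_left _ _).trans (le_max_right _ _)) z ((le_max_right _ _).trans (le_max_right _ _))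
  · obtain ⟨x, hx, hlt⟩ := hg s
    refine ⟨x, ?_, hlt⟩
    rw [hG4 x (by rw [hx]; exact ⟨hs, hlt, hw⟩), hx]

end Pool.Agent.Lib.MP_81b71e_al.Cd
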