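import Pool.Agent.Lib.MP_81b71e_al.Cd.Ext

/-!
# A countable homogeneous space with distances in a distributive algebraic lattice

`L` is a distributive algebraic lattice with countably many compact elements and `θ` an involutive
automorphism of it. There is a space on `ℕ` with compact distances in which every finite system of
conditions `d x (w i) ≤ s i` with `d (w i) (w j) ≤ θ (s i) ⊔ s j` has a solution `x`, and in which
every compact element is a distance from the point `0` (`exists_seq`).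
-/

set_option autoImplicit false

namespace Pool.Agent.Lib.MP_81b71e_al.Cd

universe u v

/-- Building a sequence by finite approximations. -/
theorem build {X : Type v} (P : ℕ → (ℕ → X) → Prop)
    (hloc : ∀ n q q', (∀ i < n, q i = q' i) → P n q → P n q') (n₀ : ℕ) (q₀ : ℕ → X)
    (h₀ : P n₀ q₀) (hstep : ∀ n q, n₀ ≤ n → P n q → ∃ x, P (n + 1) (Function.update q n x)) :
    ∃ q : ℕ → X, (∀ i < n₀, q i = q₀ i) ∧ ∀ n, n₀ ≤ n → P n q := by
  classical
  have hX : ∀ n q, ∃ x, n₀ ≤ n → P n q → P (n + 1) (Function.update q n x) := by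
    intro n q
    by_cases h : n₀ ≤ n ∧ P n q
    · obtain ⟨x, hx⟩ := hstep n q h.1 h.2
      exact ⟨x, fun _ _ => hx⟩
    · exact ⟨q 0, fun h1 h2 => absurd ⟨h1, h2⟩ h⟩
  choose x hx using hX
  let Q : ℕ → ℕ → X := fun k =>
    Nat.rec q₀ (fun k q => Function.update q (n₀ + k) (x (n₀ + k) q)) k
  have hQ0 : Q 0 = q₀ := rfl
  have hQs : ∀ k, Q (k + 1) = Function.update (Q k) (n₀ + k) (x (n₀ + k) (Q k)) := fun _ => rfl
  have hP : ∀ k, P (n₀ + k) (Q k) := by
    intro k
    induction k with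
    | zero => exact h₀
    | succ k ih =>
      rw [hQs]
      exact hx (n₀ + k) (Q k) (Nat.le_add_right _ _) ih
  have hst : ∀ m k i, i < n₀ + k → Q (k + m) i = Q k i := by
    intro m k i hi
    induction m with
    | zero => rfl
    | succ m ih =>
      rw [← Nat.add_assoc, hQs, Function.update_of_ne (by omega), ih]
  refine ⟨fun i => Q (i + 1) i, fun i hi => ?_, fun n hn => ?_⟩
  · have h1 := hst (i + 1) 0 i (by omega)
    rw [Nat.zero_add] at h1
    exact h1
  · obtain ⟨k, rfl⟩ := Nat.exists_eq_add_of_le hn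
    refine hloc _ (Q k) _ (fun i hi => ?_) (hP k)
    have h1 := hst (i + 1) k i hi
    have h2 := hst k (i + 1) i (by omega)
    rw [Nat.add_comm] at h2
    exact h1.symm.trans h2

variable {L : Type u} [CompleteLattice L]

/-- The distances of the space whose distances from `x` to smaller points are `E x`. -/
noncomputable def dist (θ : L ≃o L) (E : ℕ → ℕ → L) (x y : ℕ) : L :=
  if x = y then ⊥ else if y < x then E x y else θ (E y x)

theorem dist_self (θ : L ≃o L) (E : ℕ → ℕ → L) (x : ℕ) : dist θ E x x = ⊥ := if_pos rfl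

theorem dist_gt (θ : L ≃o L) (E : ℕ → ℕ → L) {x y : ℕ} (h : y < x) : dist θ E x y = E x y := by
  rw [dist, if_neg (by omega), if_pos h]

theorem dist_lt (θ : L ≃o L) (E : ℕ → ℕ → L) {x y : ℕ} (h : x < y) :
    dist θ E x y = θ (E y x) := by
  rw [dist, if_neg (by omega), if_neg (by omega)]

theorem dist_symm (θ : L ≃o L) (hθ : ∀ x, θ (θ x) = x) (E : ℕ → ℕ → L) (x y : ℕ) :
    dist θ E y x = θ (dist θ E x y) := by
  rcases lt_trichotomy x y with h | h | h
  · rw [dist_lt θ E h, dist_gt θ E h, hθ]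
  · rw [h, dist_self, map_bot]
  · rw [dist_gt θ E h, dist_lt θ E h]

theorem dist_congr (θ : L ≃o L) {E E' : ℕ → ℕ → L} {n : ℕ} (h : ∀ i < n, E i = E' i) {x y : ℕ}
    (hx : x < n) (hy : y < n) : dist θ E x y = dist θ E' x y := by
  rw [dist, dist, h x hx, h y hy]

/-- good up to `n` -/
def Good (θ : L ≃o L) (n : ℕ) (E : ℕ → ℕ → L) : Prop :=
  (∀ x < n, ∀ y < n, IsCompactElement (dist θ E x y)) ∧
    ∀ x < n, ∀ y < n, ∀ z < n, dist θ E x z ≤ dist θ E x y ⊔ dist θ E y z

theorem Good.congr {θ : L ≃o L} {E E' : ℕ → ℕ → L} {n : ℕ} (h : ∀ i < n, E i = E' i)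
    (hE : Good θ n E) : Good θ n E' := by
  refine ⟨fun x hx y hy => ?_, fun x hx y hy z hz => ?_⟩
  · rw [← dist_congr θ h hx hy]
    exact hE.1 x hx y hy
  · rw [← dist_congr θ h hx hy, ← dist_congr θ h hx hz, ← dist_congr θ h hy hz]
    exact hE.2 x hx y hy z hz

theorem Good.step {θ : L ≃o L} (hθ : ∀ x, θ (θ x) = x) {E : ℕ → ℕ → L} {n : ℕ}
    (hE : Good θ n E) (e : ℕ → L) (hc : ∀ y < n, IsCompactElement (e y))
    (h1 : ∀ y < n, ∀ y' < n, e y ≤ e y' ⊔ dist θ E y' y)
    (h2 : ∀ y < n, ∀ y' < n, dist θ E y y' ≤ θ (e y) ⊔ e y') :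
    Good θ (n + 1) (Function.update E n e) := by
  have ho : ∀ x < n, ∀ y < n, dist θ (Function.update E n e) x y = dist θ E x y := by
    intro x hx y hy
    refine dist_congr θ (fun i hi => ?_) hx hy
    rw [Function.update_of_ne (by omega)]
  have hn : ∀ y < n, dist θ (Function.update E n e) n y = e y := by
    intro y hy
    rw [dist_gt _ _ hy, Function.update_self]
  have hn' : ∀ y < n, dist θ (Function.update E n e) y n = θ (e y) := by
    intro y hy
    rw [dist_lt _ _ hy, Function.update_self]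
  refine ⟨fun x hx y hy => ?_, fun x hx y hy z hz => ?_⟩
  · rcases Nat.lt_succ_iff_lt_or_eq.1 hx with hx | rfl
    · rcases Nat.lt_succ_iff_lt_or_eq.1 hy with hy | rfl
      · rw [ho x hx y hy]
        exact hE.1 x hx y hy
      · rw [hn' x hx]
        exact compact_map θ (hc x hx)
    · rcases Nat.lt_succ_iff_lt_or_eq.1 hy with hy | rfl
      · rw [hn y hy]
        exact hc y hy
      · rw [dist_self]
        exact compact_bot
  · rcases Nat.lt_succ_iff_lt_or_eq.1 hx with hx | rfl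
    · rcases Nat.lt_succ_iff_lt_or_eq.1 hy with hy | rfl
      · rcases Nat.lt_succ_iff_lt_or_eq.1 hz with hz | rfl
        · rw [ho x hx y hy, ho x hx z hz, ho y hy z hz]
          exact hE.2 x hx y hy z hz
        · rw [ho x hx y hy, hn' x hx, hn' y hy]
          have h3 := θ.monotone (h1 x hx y hy)
          rw [map_sup, ← dist_symm θ hθ] at h3
          rwa [sup_comm]
      · rcases Nat.lt_succ_iff_lt_or_eq.1 hz with hz | rfl
        · rw [ho x hx z hz, hn' x hx, hn z hz]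
          exact h2 x hx z hz
        · exact le_sup_left
    · rcases Nat.lt_succ_iff_lt_or_eq.1 hz with hz | rfl
      · rcases Nat.lt_succ_iff_lt_or_eq.1 hy with hy | rfl
        · rw [hn z hz, hn y hy, ho y hy z hz]
          exact h1 z hz y hy
        · exact le_sup_right
      · rw [dist_self]
        exact bot_le

/-- requirements -/
def Req (θ : L ≃o L) (E : ℕ → ℕ → L) (m : ℕ) :
    List (ℕ × {c : L // IsCompactElement c}) ⊕ {c : L // IsCompactElement c} → Prop
  | Sum.inl l => (∀ p ∈ l, p.1 < m) →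
      (∀ p ∈ l, ∀ q ∈ l, dist θ E p.1 q.1 ≤ θ (p.2 : L) ⊔ (q.2 : L)) →
      ∀ p ∈ l, dist θ E m p.1 ≤ (p.2 : L)
  | Sum.inr s => 0 < m → dist θ E 0 m = (s : L)

theorem Req.congr {θ : L ≃o L} {E E' : ℕ → ℕ → L} {m : ℕ} (h : ∀ i < m + 1, E i = E' i)
    {r : List (ℕ × {c : L // IsCompactElement c}) ⊕ {c : L // IsCompactElement c}}
    (hr : Req θ E m r) : Req θ E' m r := by
  rcases r with l | s
  · intro h1 h2 p hp
    rw [← dist_congr θ h (Nat.lt_succ_self m) ((h1 p hp).trans (Nat.lt_succ_self m))]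
    refine hr h1 (fun p hp q hq => ?_) p hp
    rw [dist_congr θ h ((h1 p hp).trans (Nat.lt_succ_self m))
      ((h1 q hq).trans (Nat.lt_succ_self m))]
    exact h2 p hp q hq
  · intro hm
    rw [← dist_congr θ h (hm.trans (Nat.lt_succ_self m)) (Nat.lt_succ_self m)]
    exact hr hm

/-- One step of the construction. -/
theorem exists_step [IsCompactlyGenerated L]
    (hd : ∀ x y z : L, (x ⊔ y) ⊓ (x ⊔ z) ≤ x ⊔ y ⊓ z) (θ : L ≃o L) (hθ : ∀ x, θ (θ x) = x)
    {E : ℕ → ℕ → L} {n : ℕ} (hE : Good θ n E)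
    (r : List (ℕ × {c : L // IsCompactElement c}) ⊕ {c : L // IsCompactElement c}) :
    ∃ e : ℕ → L, Good θ (n + 1) (Function.update E n e) ∧
      Req θ (Function.update E n e) n r := by
  classical
  have ho : ∀ e : ℕ → L, ∀ x < n, ∀ y < n,
      dist θ (Function.update E n e) x y = dist θ E x y := by
    intro e x hx y hy
    refine dist_congr θ (fun i hi => ?_) hx hy
    rw [Function.update_of_ne (by omega)]
  have key : ∀ l : List (ℕ × {c : L // IsCompactElement c}), (∀ p ∈ l, p.1 < n) →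
      (∀ p ∈ l, ∀ q ∈ l, dist θ E p.1 q.1 ≤ θ (p.2 : L) ⊔ (q.2 : L)) →
      ∃ e : ℕ → L, Good θ (n + 1) (Function.update E n e) ∧ ∀ p ∈ l, e p.1 ≤ (p.2 : L) := by
    intro l hl1 hl2
    obtain ⟨e, he1, he2, he3, he4⟩ := ext hd θ hθ (Y := Fin n) (fun x y => dist θ E x y)
      (fun x y => hE.1 x x.2 y y.2) (fun y => dist_self θ E y) (fun x y => dist_symm θ hθ E x y)
      (fun x y z => hE.2 x x.2 y y.2 z z.2) (ι := Fin l.length) Finset.univ
      (fun i => ⟨(l.get i).1, hl1 _ (List.get_mem l i)⟩) (fun i => ((l.get i).2 : L))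
      (fun i _ j _ => hl2 _ (List.get_mem l i) _ (List.get_mem l j))
    have hx : ∀ y (hy : y < n), (if h : y < n then e ⟨y, h⟩ else ⊥) = e ⟨y, hy⟩ := by
      intro y hy
      rw [dif_pos hy]
    refine ⟨fun y => if h : y < n then e ⟨y, h⟩ else ⊥, hE.step hθ _ ?_ ?_ ?_, ?_⟩
    · intro y hy
      rw [hx y hy]
      exact he1 _
    · intro y hy y' hy'
      rw [hx y hy, hx y' hy']
      exact he2 ⟨y, hy⟩ ⟨y', hy'⟩
    · intro y hy y' hy'
      rw [hx y hy, hx y' hy']
      exact he3 ⟨y, hy⟩ ⟨y', hy'⟩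
    · intro p hp
      obtain ⟨i, hi⟩ := List.get_of_mem hp
      have h1 := he4 i (Finset.mem_univ i)
      have h2 : (⟨(l.get i).1, hl1 _ (List.get_mem l i)⟩ : Fin n) = ⟨p.1, hl1 p hp⟩ := by
        apply Fin.ext
        show (l.get i).1 = p.1
        rw [hi]
      have h3 : e ⟨p.1, hl1 p hp⟩ ≤ (p.2 : L) := by
        rw [← h2]
        refine h1.trans_eq ?_
        rw [hi]
      show (if h : p.1 < n then e ⟨p.1, h⟩ else ⊥) ≤ (p.2 : L)
      rw [hx p.1 (hl1 p hp)]
      exact h3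
  rcases r with l | s
  · by_cases hl : (∀ p ∈ l, p.1 < n) ∧
        (∀ p ∈ l, ∀ q ∈ l, dist θ E p.1 q.1 ≤ θ (p.2 : L) ⊔ (q.2 : L))
    · obtain ⟨e, he, hle⟩ := key l hl.1 hl.2
      refine ⟨e, he, fun _ _ p hp => ?_⟩
      rw [dist_gt θ _ (hl.1 p hp), Function.update_self]
      exact hle p hp
    · obtain ⟨e, he, -⟩ := key [] (fun p hp => absurd hp List.not_mem_nil)
        (fun p hp => absurd hp List.not_mem_nil)
      refine ⟨e, he, fun h1 h2 => absurd ⟨h1, fun p hp q hq => ?_⟩ hl⟩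
      rw [← ho e p.1 (h1 p hp) q.1 (h1 q hq)]
      exact h2 p hp q hq
  · rcases Nat.eq_zero_or_pos n with rfl | hn
    · obtain ⟨e, he, -⟩ := key [] (fun p hp => absurd hp List.not_mem_nil)
        (fun p hp => absurd hp List.not_mem_nil)
      exact ⟨e, he, fun h1 => absurd h1 (lt_irrefl 0)⟩
    · refine ⟨fun y => θ (s : L) ⊔ dist θ E 0 y, hE.step hθ _ ?_ ?_ ?_, fun _ => ?_⟩
      · intro y hy
        exact compact_sup (compact_map θ s.2) (hE.1 0 hn y hy)
      · intro y hy y' hy'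
        show θ (s : L) ⊔ dist θ E 0 y ≤ θ (s : L) ⊔ dist θ E 0 y' ⊔ dist θ E y' y
        rw [sup_assoc]
        exact sup_le_sup_left (hE.2 0 hn y' hy' y hy) _
      · intro y hy y' hy'
        show dist θ E y y' ≤ θ (θ (s : L) ⊔ dist θ E 0 y) ⊔ (θ (s : L) ⊔ dist θ E 0 y')
        refine (hE.2 y hy 0 hn y' hy').trans (sup_le ?_ ?_)
        · rw [map_sup, ← dist_symm θ hθ]
          exact le_sup_of_le_left le_sup_right
        · exact le_sup_of_le_right le_sup_right
      · rw [dist_lt θ _ hn, Function.update_self, dist_self, sup_bot_eq, hθ]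

/-- **The countable homogeneous space.** -/
theorem exists_seq [IsCompactlyGenerated L]
    (hd : ∀ x y z : L, (x ⊔ y) ⊓ (x ⊔ z) ≤ x ⊔ y ⊓ z) (θ : L ≃o L) (hθ : ∀ x, θ (θ x) = x)
    (hc : {c : L | IsCompactElement c}.Countable) :
    ∃ d : ℕ → ℕ → L, (∀ x y, IsCompactElement (d x y)) ∧ (∀ x, d x x = ⊥) ∧
      (∀ x y, d y x = θ (d x y)) ∧ (∀ x y z, d x z ≤ d x y ⊔ d y z) ∧
      (∀ l : List (ℕ × L), (∀ p ∈ l, IsCompactElement p.2) →
        (∀ p ∈ l, ∀ q ∈ l, d p.1 q.1 ≤ θ p.2 ⊔ q.2) → ∃ x, ∀ p ∈ l, d x p.1 ≤ p.2) ∧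
      ∀ s, IsCompactElement s → ∃ y, d 0 y = s := by
  classical
  have hcK : Countable {c : L // IsCompactElement c} := hc.to_subtype
  have hne : Nonempty (List (ℕ × {c : L // IsCompactElement c}) ⊕ {c : L // IsCompactElement c}) :=
    ⟨Sum.inl []⟩
  obtain ⟨h, hh⟩ := exists_surjective_nat
    (List (ℕ × {c : L // IsCompactElement c}) ⊕ {c : L // IsCompactElement c})
  obtain ⟨E, -, hE⟩ := build
    (fun n E => Good θ n E ∧ ∀ m < n, Req θ E m (h (Nat.unpair m).1)) (by
      intro n q q' hqq hP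
      exact ⟨hP.1.congr hqq, fun m hm =>
        (hP.2 m hm).congr fun i hi => hqq i (by omega)⟩) 0 (fun _ _ => ⊥)
    ⟨⟨fun x hx => absurd hx (Nat.not_lt_zero x), fun x hx => absurd hx (Nat.not_lt_zero x)⟩,
      fun m hm => absurd hm (Nat.not_lt_zero m)⟩ (by
      intro n q _ hP
      obtain ⟨e, he1, he2⟩ := exists_step hd θ hθ hP.1 (h (Nat.unpair n).1)
      refine ⟨e, he1, fun m hm => ?_⟩
      rcases Nat.lt_succ_iff_lt_or_eq.1 hm with hm | rfl
      · refine (hP.2 m hm).congr fun i hi => ?_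
        rw [Function.update_of_ne (by omega)]
      · exact he2)
  have hG : ∀ n, Good θ n E := fun n => (hE n (Nat.zero_le n)).1
  have hR : ∀ m, Req θ E m (h (Nat.unpair m).1) :=
    fun m => (hE (m + 1) (Nat.zero_le _)).2 m (Nat.lt_succ_self m)
  have hR' : ∀ r N, ∃ m, N ≤ m ∧ Req θ E m r := by
    intro r N
    obtain ⟨a, rfl⟩ := hh r
    refine ⟨Nat.pair a N, Nat.right_le_pair a N, ?_⟩
    have h1 := hR (Nat.pair a N)
    rwa [Nat.unpair_pair] at h1
  refine ⟨dist θ E, fun x y => (hG (max x y + 1)).1 x (by omega) y (by omega),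
    dist_self θ E, dist_symm θ hθ E,
    fun x y z => (hG (max x (max y z) + 1)).2 x (by omega) y (by omega) z (by omega), ?_, ?_⟩
  · intro l hl1 hl2
    obtain ⟨m, hm, hRm⟩ := hR'
      (Sum.inl (l.pmap (fun p hp => (p.1, (⟨p.2, hp⟩ : {c : L // IsCompactElement c}))) hl1))
      ((l.map Prod.fst).sum + 1)
    have hlt : ∀ p ∈ l, p.1 < m := by
      intro p hp
      have h1 : p.1 ≤ (l.map Prod.fst).sum := List.le_sum_of_mem (List.mem_map_of_mem hp)
      omega
    refine ⟨m, fun p hp => ?_⟩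
    refine hRm ?_ ?_ (p.1, ⟨p.2, hl1 p hp⟩) (List.mem_pmap.2 ⟨p, hp, rfl⟩)
    · intro p' hp'
      obtain ⟨q, hq, rfl⟩ := List.mem_pmap.1 hp'
      exact hlt q hq
    · intro p' hp' q' hq'
      obtain ⟨a, ha, rfl⟩ := List.mem_pmap.1 hp'
      obtain ⟨b, hb, rfl⟩ := List.mem_pmap.1 hq'
      exact hl2 a ha b hb
  · intro s hs
    obtain ⟨m, hm, hRm⟩ := hR' (Sum.inr ⟨s, hs⟩) 1
    exact ⟨m, hRm (by omega)⟩

end Pool.Agent.Lib.MP_81b71e_al.Cd
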