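import Pool.Agent.Lib.MP_81b71e_al.Cd.Real
import Pool.Agent.Lib.MP_81b71e_al.Cd.Seq

/-!
# Distributive algebraic lattices with countably many compact elements

For such a lattice `L` and an involutive automorphism `θ` the pair formed by `L` and the fixed points
of `θ` is realizable (`realizable_of_countable`).
-/

set_option autoImplicit false

namespace Pool.Agent.Lib.MP_81b71e_al.Cd

universe u

variable {L : Type u} [CompleteLattice L]

/-- Contractions of a countable homogeneous space extending a given one of a pair. -/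
theorem exists_contraction (θ : L ≃o L) (d : ℕ → ℕ → L) (hcomp : ∀ x y, IsCompactElement (d x y))
    (hself : ∀ x, d x x = ⊥) (hsymm : ∀ x y, d y x = θ (d x y))
    (htri : ∀ x y z, d x z ≤ d x y ⊔ d y z)
    (hom : ∀ l : List (ℕ × L), (∀ p ∈ l, IsCompactElement p.2) →
      (∀ p ∈ l, ∀ q ∈ l, d p.1 q.1 ≤ θ p.2 ⊔ q.2) → ∃ x, ∀ p ∈ l, d x p.1 ≤ p.2)
    {a b x y : ℕ} (hxy : d x y ≤ d a b) :
    ∃ f : ℕ → ℕ, (∀ p q, d (f p) (f q) ≤ d p q) ∧ d (f a) x = ⊥ ∧ d (f b) y = ⊥ := by
  classical
  obtain ⟨p, hp0, hp1, hps⟩ : ∃ p : ℕ → ℕ, p 0 = a ∧ p 1 = b ∧ ∀ z, ∃ n, p n = z := by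
    refine ⟨fun n => if n = 0 then a else if n = 1 then b else n - 2, if_pos rfl, ?_, ?_⟩
    · exact (if_neg one_ne_zero).trans (if_pos rfl)
    · intro n
      refine ⟨n + 2, ?_⟩
      show (if n + 2 = 0 then a else if n + 2 = 1 then b else n + 2 - 2) = n
      rw [if_neg (by omega), if_neg (by omega), Nat.add_sub_cancel]
  obtain ⟨q, hq0, hq⟩ := build
    (fun n q => ∀ i < n, ∀ j < n, d (q i) (q j) ≤ d (p i) (p j)) (by
      intro n q q' hqq hP i hi j hj
      rw [← hqq i hi, ← hqq j hj]
      exact hP i hi j hj) 2 (fun i => if i = 0 then x else y) (by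
      intro i hi j hj
      have hi' : i = 0 ∨ i = 1 := by omega
      have hj' : j = 0 ∨ j = 1 := by omega
      rcases hi' with rfl | rfl <;> rcases hj' with rfl | rfl
      · rw [hself]
        exact bot_le
      · show d (if (0 : ℕ) = 0 then x else y) (if (1 : ℕ) = 0 then x else y) ≤ _
        rw [if_pos rfl, if_neg one_ne_zero, hp0, hp1]
        exact hxy
      · show d (if (1 : ℕ) = 0 then x else y) (if (0 : ℕ) = 0 then x else y) ≤ _
        rw [if_pos rfl, if_neg one_ne_zero, hp0, hp1, hsymm x y, hsymm a b]
        exact θ.monotone hxy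
      · rw [hself]
        exact bot_le) (by
      intro n q _ hP
      obtain ⟨z, hz⟩ := hom ((List.range n).map fun i => (q i, d (p n) (p i))) (by
          intro r hr
          obtain ⟨i, _, rfl⟩ := List.mem_map.1 hr
          exact hcomp _ _) (by
          intro r hr r' hr'
          obtain ⟨i, hi, rfl⟩ := List.mem_map.1 hr
          obtain ⟨j, hj, rfl⟩ := List.mem_map.1 hr'
          show d (q i) (q j) ≤ θ (d (p n) (p i)) ⊔ d (p n) (p j)
          rw [← hsymm]
          exact (hP i (List.mem_range.1 hi) j (List.mem_range.1 hj)).trans (htri _ _ _))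
      have hz' : ∀ i < n, d z (q i) ≤ d (p n) (p i) := fun i hi =>
        hz (q i, d (p n) (p i)) (List.mem_map.2 ⟨i, List.mem_range.2 hi, rfl⟩)
      refine ⟨z, fun i hi j hj => ?_⟩
      rcases Nat.lt_succ_iff_lt_or_eq.1 hi with hi | rfl
      · rcases Nat.lt_succ_iff_lt_or_eq.1 hj with hj | rfl
        · rw [Function.update_of_ne (by omega), Function.update_of_ne (by omega)]
          exact hP i hi j hj
        · rw [Function.update_of_ne (by omega), Function.update_self, hsymm z (q i),
            hsymm (p j) (p i)]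
          exact θ.monotone (hz' i hi)
      · rcases Nat.lt_succ_iff_lt_or_eq.1 hj with hj | rfl
        · rw [Function.update_self, Function.update_of_ne (by omega)]
          exact hz' j hj
        · rw [Function.update_self, hself]
          exact bot_le)
  have hq' : ∀ i j, d (q i) (q j) ≤ d (p i) (p j) := fun i j =>
    hq (max 2 (max i j + 1)) (by omega) i (by omega) j (by omega)
  choose g hg using hps
  refine ⟨fun z => q (g z), fun z z' => ?_, ?_, ?_⟩
  · have h1 := hq' (g z) (g z')
    rwa [hg, hg] at h1
  · have h1 := hq' (g a) 0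
    rwa [hg, hp0, hself, le_bot_iff, hq0 0 (by omega), if_pos rfl] at h1
  · have h1 := hq' (g b) 1
    rwa [hg, hp1, hself, le_bot_iff, hq0 1 (by omega), if_neg one_ne_zero] at h1

/-- **Distributive lattices with countably many compact elements.** -/
theorem realizable_of_countable [IsCompactlyGenerated L]
    (hd : ∀ x y z : L, (x ⊔ y) ⊓ (x ⊔ z) ≤ x ⊔ y ⊓ z)
    (hc : {c : L | IsCompactElement c}.Countable) (θ : L ≃o L) (hθ : ∀ x, θ (θ x) = x) :
    Realizable L {x | θ x = x} := by
  classical
  obtain ⟨d, d1, d2, d3, d4, d5, d6⟩ := exists_seq hd θ hθ hc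
  have hS : Space θ (A := ULift.{u} ℕ) (fun x y => d x.down y.down) := by
    refine ⟨fun x y => d1 _ _, fun x => d2 _, fun x y => d3 _ _, fun x y z => d4 _ _ _,
      fun x y c c' hc hc' hxy => ?_, fun a b x y hxy => ?_, fun s hs => ?_⟩
    · have hxy' : d x.down y.down ≤ c ⊔ c' := hxy
      obtain ⟨m, hm⟩ := d5 [(x.down, θ c), (y.down, c')] (by
          intro r hr
          rcases List.mem_cons.1 hr with rfl | hr
          · exact compact_map θ hc
          · rw [List.mem_singleton.1 hr]
            exact hc') (by
          have h3 : d y.down x.down ≤ θ c ⊔ θ c' := by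
            rw [d3 x.down y.down, ← map_sup]
            exact θ.monotone hxy'
          intro r hr r' hr'
          rcases List.mem_cons.1 hr with rfl | hr
          · rcases List.mem_cons.1 hr' with rfl | hr'
            · show d x.down x.down ≤ _
              rw [d2]
              exact bot_le
            · rw [List.mem_singleton.1 hr']
              show d x.down y.down ≤ θ (θ c) ⊔ c'
              rw [hθ]
              exact hxy'
          · rw [List.mem_singleton.1 hr]
            rcases List.mem_cons.1 hr' with rfl | hr'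
            · show d y.down x.down ≤ θ c' ⊔ θ c
              rwa [sup_comm]
            · rw [List.mem_singleton.1 hr']
              show d y.down y.down ≤ _
              rw [d2]
              exact bot_le)
      have hm1 : d m x.down ≤ θ c := hm (x.down, θ c) List.mem_cons_self
      have hm2 : d m y.down ≤ c' :=
        hm (y.down, c') (List.mem_cons_of_mem _ (List.mem_singleton.2 rfl))
      refine ⟨⟨m⟩, ?_, hm2⟩
      show d x.down m ≤ c
      rw [d3 m x.down]
      have h4 := θ.monotone hm1
      rwa [hθ] at h4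
    · obtain ⟨f, hf, hfa, hfb⟩ := exists_contraction θ d d1 d2 d3 d4 d5
        (show d x.down y.down ≤ d a.down b.down from hxy)
      exact ⟨fun p => ⟨f p.down⟩, fun p q => hf _ _, hfa, hfb⟩
    · obtain ⟨y, hy⟩ := d6 s hs
      exact ⟨⟨0⟩, ⟨y⟩, hy⟩
  exact hS.realizable hθ

end Pool.Agent.Lib.MP_81b71e_al.Cd
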