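import Pool.Agent.Lib.MP_81b71e_al.Cd.Real
import Pool.Agent.Lib.MP_81b71e_al.Cd.Ari

/-!
# Distributive algebraic lattices whose compact elements are closed under meets

For such a lattice `L`, of any cardinality, and an involutive automorphism `θ` the pair formed by `L`
and the fixed points of `θ` is realizable (`realizable_of_inf`).
-/

set_option autoImplicit false

namespace Pool.Agent.Lib.MP_81b71e_al.Cd

universe u

variable {L : Type u} [CompleteLattice L]

section
variable {W : Type u} [LinearOrder W] [WellFoundedLT W]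

/-- finite closed sets -/
theorem exists_closed (G : W → Finset (W × K L)) (hG : ∀ x, ∀ p ∈ G x, p.1 < x) (x : W) :
    ∃ F : Finset W, x ∈ F ∧ ∀ z ∈ F, ∀ p ∈ G z, p.1 ∈ F := by
  classical
  induction x using WellFoundedLT.induction with
  | ind x ih =>
    have h1 : ∀ y, ∃ F : Finset W, y < x → (y ∈ F ∧ ∀ z ∈ F, ∀ p ∈ G z, p.1 ∈ F) := by
      intro y
      by_cases hy : y < x
      · obtain ⟨F, hF⟩ := ih y hy
        exact ⟨F, fun _ => hF⟩
      · exact ⟨∅, fun h => absurd h hy⟩
    choose F hF using h1
    refine ⟨insert x ((G x).biUnion fun p => F p.1), Finset.mem_insert_self _ _, fun z hz p hp => ?_⟩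
    rcases Finset.mem_insert.1 hz with rfl | hz
    · exact Finset.mem_insert_of_mem (Finset.mem_biUnion.2 ⟨p, hp, (hF p.1 (hG z p hp)).1⟩)
    · obtain ⟨q, hq, hz'⟩ := Finset.mem_biUnion.1 hz
      exact Finset.mem_insert_of_mem (Finset.mem_biUnion.2
        ⟨q, hq, (hF q.1 (hG x q hq)).2 z hz' p hp⟩)

variable (θ : L ≃o L) (d : W → W → L) (hcomp : ∀ x y, IsCompactElement (d x y))
  (hself : ∀ x, d x x = ⊥) (hsymm : ∀ x y, d y x = θ (d x y))
  (htri : ∀ x y z, d x z ≤ d x y ⊔ d y z)
  (hom : ∀ s : Finset (W × K L), s.Nonempty →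
    (∀ p ∈ s, ∀ q ∈ s, d p.1 q.1 ≤ θ (p.2 : L) ⊔ (q.2 : L)) → ∃ x, ∀ p ∈ s, d x p.1 ≤ (p.2 : L))

include hself hsymm htri hom hcomp in
omit [WellFoundedLT W] in
/-- finite contractions -/
theorem exists_finite_contraction {a b x y : W} (hxy : d x y ≤ d a b) (T : Finset W) :
    ∃ f : W → W, (∀ p, (p ∈ T ∨ p = a ∨ p = b) → ∀ q, (q ∈ T ∨ q = a ∨ q = b) →
      d (f p) (f q) ≤ d p q) ∧ d (f a) x = ⊥ ∧ d (f b) y = ⊥ := by
  classical
  induction T using Finset.induction_on with
  | empty =>
    by_cases hab : b = a
    · have h1 : d x y = ⊥ := by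
        rw [hab, hself, le_bot_iff] at hxy
        exact hxy
      refine ⟨fun _ => x, fun p _ q _ => ?_, hself x, h1⟩
      rw [hself]
      exact bot_le
    · refine ⟨fun z => if z = a then x else y, ?_, ?_, ?_⟩
      · intro p hp q hq
        have hp' : p = a ∨ p = b := hp.resolve_left (Finset.notMem_empty p)
        have hq' : q = a ∨ q = b := hq.resolve_left (Finset.notMem_empty q)
        rcases hp' with rfl | rfl <;> rcases hq' with rfl | rfl
        · rw [hself]
          exact bot_le
        · show d (if p = p then x else y) (if q = p then x else y) ≤ d p q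
          rw [if_pos rfl, if_neg hab]
          exact hxy
        · show d (if p = q then x else y) (if q = q then x else y) ≤ d p q
          rw [if_pos rfl, if_neg hab, hsymm x y, hsymm q p]
          exact θ.monotone hxy
        · rw [hself]
          exact bot_le
      · show d (if a = a then x else y) x = ⊥
        rw [if_pos rfl, hself]
      · show d (if b = a then x else y) y = ⊥
        rw [if_neg hab, hself]
  | insert z T hz ih =>
    obtain ⟨f, hf, hfa, hfb⟩ := ih
    by_cases hz' : z = a ∨ z = b
    · refine ⟨f, fun p hp q hq => hf p ?_ q ?_, hfa, hfb⟩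
      · rcases hp with hp | hp
        · rcases Finset.mem_insert.1 hp with rfl | hp
          · exact Or.inr hz'
          · exact Or.inl hp
        · exact Or.inr hp
      · rcases hq with hq | hq
        · rcases Finset.mem_insert.1 hq with rfl | hq
          · exact Or.inr hz'
          · exact Or.inl hq
        · exact Or.inr hq
    have hza : z ≠ a := fun h => hz' (Or.inl h)
    have hzb : z ≠ b := fun h => hz' (Or.inr h)
    obtain ⟨v, hv⟩ := hom ((insert a (insert b T)).image fun i => (f i, (⟨d z i, hcomp z i⟩ : K L)))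
      ⟨_, Finset.mem_image_of_mem _ (Finset.mem_insert_self a _)⟩ (by
        intro r hr r' hr'
        obtain ⟨i, hi, rfl⟩ := Finset.mem_image.1 hr
        obtain ⟨j, hj, rfl⟩ := Finset.mem_image.1 hr'
        have hi' : i ∈ T ∨ i = a ∨ i = b := by
          rcases Finset.mem_insert.1 hi with h | h
          · exact Or.inr (Or.inl h)
          · rcases Finset.mem_insert.1 h with h | h
            · exact Or.inr (Or.inr h)
            · exact Or.inl h
        have hj' : j ∈ T ∨ j = a ∨ j = b := by
          rcases Finset.mem_insert.1 hj with h | h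
          · exact Or.inr (Or.inl h)
          · rcases Finset.mem_insert.1 h with h | h
            · exact Or.inr (Or.inr h)
            · exact Or.inl h
        show d (f i) (f j) ≤ θ (d z i) ⊔ d z j
        rw [← hsymm]
        exact (hf i hi' j hj').trans (htri _ _ _))
    have hv' : ∀ i, (i ∈ T ∨ i = a ∨ i = b) → d v (f i) ≤ d z i := by
      intro i hi
      refine hv (f i, ⟨d z i, hcomp z i⟩) (Finset.mem_image.2 ⟨i, ?_, rfl⟩)
      rcases hi with h | h | h
      · exact Finset.mem_insert_of_mem (Finset.mem_insert_of_mem h)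
      · rw [h]
        exact Finset.mem_insert_self a _
      · rw [h]
        exact Finset.mem_insert_of_mem (Finset.mem_insert_self b _)
    have hu : ∀ i, (i ∈ T ∨ i = a ∨ i = b) → Function.update f z v i = f i := by
      intro i hi
      refine Function.update_of_ne ?_ _ _
      rintro rfl
      rcases hi with h | h
      · exact hz h
      · exact hz' h
    refine ⟨Function.update f z v, fun p hp q hq => ?_, ?_, ?_⟩
    · have hp' : p = z ∨ (p ∈ T ∨ p = a ∨ p = b) := by
        rcases hp with hp | hp
        · rcases Finset.mem_insert.1 hp with h | h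
          · exact Or.inl h
          · exact Or.inr (Or.inl h)
        · exact Or.inr (Or.inr hp)
      have hq' : q = z ∨ (q ∈ T ∨ q = a ∨ q = b) := by
        rcases hq with hq | hq
        · rcases Finset.mem_insert.1 hq with h | h
          · exact Or.inl h
          · exact Or.inr (Or.inl h)
        · exact Or.inr (Or.inr hq)
      rcases hp' with rfl | hp'
      · rcases hq' with rfl | hq'
        · rw [hself]
          exact bot_le
        · rw [Function.update_self, hu q hq']
          exact hv' q hq'
      · rcases hq' with rfl | hq'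
        · rw [Function.update_self, hu p hp', hsymm v (f p), hsymm q p]
          exact θ.monotone (hv' p hp')
        · rw [hu p hp', hu q hq']
          exact hf p hp' q hq'
    · rw [Function.update_of_ne (Ne.symm hza)]
      exact hfa
    · rw [Function.update_of_ne (Ne.symm hzb)]
      exact hfb

include hself hsymm htri hom in
/-- total contractions -/
theorem exists_total_contraction (G : W → Finset (W × K L)) (hG1 : ∀ x, ∀ p ∈ G x, p.1 < x)
    (hG2 : ∀ x, ∀ p ∈ G x, ∀ q ∈ G x, d p.1 q.1 ≤ θ (p.2 : L) ⊔ (q.2 : L))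
    (hG3 : ∀ x, ∀ y < x, d x y = (G x).inf fun p => (p.2 : L) ⊔ d p.1 y) (F : Finset W)
    (hF : ∀ z ∈ F, ∀ p ∈ G z, p.1 ∈ F) (f₀ : W → W)
    (hf₀ : ∀ p ∈ F, ∀ q ∈ F, d (f₀ p) (f₀ q) ≤ d p q) :
    ∃ f : W → W, (∀ p q, d (f p) (f q) ≤ d p q) ∧ ∀ p ∈ F, f p = f₀ p := by
  classical
  rcases isEmpty_or_nonempty W with hW | hW
  · exact ⟨f₀, fun p => hW.elim p, fun p => hW.elim p⟩
  obtain ⟨f, hf⟩ := wbuild (W := W) (X := W)
    (fun x f => (x ∈ F → f x = f₀ x) ∧ ∀ y ≤ x, d (f x) (f y) ≤ d x y) (by
      intro x q q' h hq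
      refine ⟨fun hx => ?_, fun y hy => ?_⟩
      · rw [← h x le_rfl]
        exact hq.1 hx
      · rw [← h x le_rfl, ← h y hy]
        exact hq.2 y hy) (by
      intro x q hq
      -- the old points
      have hold : ∀ y < x, ∀ z < x, d (q y) (q z) ≤ d y z := by
        intro y hy z hz
        rcases le_total z y with h | h
        · exact (hq y hy).2 z h
        · rw [hsymm (q z) (q y), hsymm z y]
          exact θ.monotone ((hq z hz).2 y h)
      have hgate : ∀ p ∈ G x, d x p.1 ≤ (p.2 : L) := by
        intro p hp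
        rw [hG3 x p.1 (hG1 x p hp)]
        refine (Finset.inf_le hp).trans ?_
        rw [hself, sup_bot_eq]
      have key : ∀ v : W, (∀ p ∈ G x, d v (q p.1) ≤ (p.2 : L)) →
          ∀ y ≤ x, d (Function.update q x v x) (Function.update q x v y) ≤ d x y := by
        intro v hv y hy
        rcases hy.lt_or_eq with hy | rfl
        · rw [Function.update_self, Function.update_of_ne hy.ne, hG3 x y hy]
          refine Finset.le_inf fun p hp => (htri v (q p.1) (q y)).trans (sup_le_sup (hv p hp) ?_)
          exact hold p.1 (hG1 x p hp) y hy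
        · rw [hself]
          exact bot_le
      by_cases hx : x ∈ F
      · refine ⟨f₀ x, fun _ => Function.update_self .., key _ fun p hp => ?_⟩
        have hpF : p.1 ∈ F := hF x hx p hp
        rw [(hq p.1 (hG1 x p hp)).1 hpF]
        exact (hf₀ x hx p.1 hpF).trans (hgate p hp)
      · obtain ⟨v, hv⟩ : ∃ v, ∀ p ∈ G x, d v (q p.1) ≤ (p.2 : L) := by
          rcases (G x).eq_empty_or_nonempty with h | h
          · refine ⟨x, fun p hp => ?_⟩
            rw [h] at hp
            exact absurd hp (Finset.notMem_empty p)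
          · obtain ⟨v, hv⟩ := hom ((G x).image fun p => (q p.1, p.2)) (h.image _) (by
              intro r hr r' hr'
              obtain ⟨p, hp, rfl⟩ := Finset.mem_image.1 hr
              obtain ⟨p', hp', rfl⟩ := Finset.mem_image.1 hr'
              exact (hold p.1 (hG1 x p hp) p'.1 (hG1 x p' hp')).trans (hG2 x p hp p' hp'))
            exact ⟨v, fun p hp => hv (q p.1, p.2) (Finset.mem_image.2 ⟨p, hp, rfl⟩)⟩
        exact ⟨v, fun h => absurd h hx, key v hv⟩)
  refine ⟨f, fun p q => ?_, fun p hp => (hf p).1 hp⟩
  rcases le_total q p with h | h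
  · exact (hf p).2 q h
  · rw [hsymm (f q) (f p), hsymm q p]
    exact θ.monotone ((hf q).2 p h)

end

/-- **Distributive lattices whose compact elements are closed under meets.** -/
theorem realizable_of_inf [IsCompactlyGenerated L]
    (hd : ∀ x y z : L, (x ⊔ y) ⊓ (x ⊔ z) ≤ x ⊔ y ⊓ z)
    (hm : ∀ a b : L, IsCompactElement a → IsCompactElement b → IsCompactElement (a ⊓ b))
    (θ : L ≃o L) (hθ : ∀ x, θ (θ x) = x) : Realizable L {x | θ x = x} := by
  classical
  obtain ⟨W, i1, i2, i3, d, G, d1, d2, d3, d4, G1, G2, G3, G4⟩ := exists_gate_space hd hm θ hθ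
  have hom : ∀ s : Finset (W × K L), s.Nonempty →
      (∀ p ∈ s, ∀ q ∈ s, d p.1 q.1 ≤ θ (p.2 : L) ⊔ (q.2 : L)) →
      ∃ x, ∀ p ∈ s, d x p.1 ≤ (p.2 : L) := by
    intro s hs hw
    obtain ⟨x, hx, hlt⟩ := G4 s hs hw
    refine ⟨x, fun p hp => ?_⟩
    rw [G3 x p.1 (hlt p hp), hx]
    refine (Finset.inf_le hp).trans ?_
    rw [d2, sup_bot_eq]
  have hS : Space θ d := by
    refine ⟨d1, d2, d3, d4, fun x y c c' hc hc' hxy => ?_, fun a b x y hxy => ?_, fun s hs => ?_⟩
    · obtain ⟨m, hm'⟩ := hom {(x, ⟨θ c, compact_map θ hc⟩), (y, ⟨c', hc'⟩)}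
        (Finset.insert_nonempty _ _) (by
          have h3 : d y x ≤ θ c ⊔ θ c' := by
            rw [d3 x y, ← map_sup]
            exact θ.monotone hxy
          intro r hr r' hr'
          rcases Finset.mem_insert.1 hr with rfl | hr
          · rcases Finset.mem_insert.1 hr' with rfl | hr'
            · show d x x ≤ _
              rw [d2]
              exact bot_le
            · rw [Finset.mem_singleton.1 hr']
              show d x y ≤ θ (θ c) ⊔ c'
              rw [hθ]
              exact hxy
          · rw [Finset.mem_singleton.1 hr]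
            rcases Finset.mem_insert.1 hr' with rfl | hr'
            · show d y x ≤ θ c' ⊔ θ c
              rwa [sup_comm]
            · rw [Finset.mem_singleton.1 hr']
              show d y y ≤ _
              rw [d2]
              exact bot_le)
      have hm1 : d m x ≤ θ c := hm' (x, ⟨θ c, compact_map θ hc⟩) (Finset.mem_insert_self _ _)
      have hm2 : d m y ≤ c' :=
        hm' (y, ⟨c', hc'⟩) (Finset.mem_insert_of_mem (Finset.mem_singleton_self _))
      refine ⟨m, ?_, hm2⟩
      rw [d3 m x]
      have h4 := θ.monotone hm1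
      rwa [hθ] at h4
    · obtain ⟨Fa, hFa, hFa'⟩ := exists_closed G G1 a
      obtain ⟨Fb, hFb, hFb'⟩ := exists_closed G G1 b
      obtain ⟨f₀, hf₀, h0a, h0b⟩ := exists_finite_contraction θ d d1 d2 d3 d4 hom hxy (Fa ∪ Fb)
      obtain ⟨f, hf, hfF⟩ := exists_total_contraction θ d d2 d3 d4 hom G G1 G2 G3 (Fa ∪ Fb) (by
          intro z hz p hp
          rcases Finset.mem_union.1 hz with hz | hz
          · exact Finset.mem_union_left _ (hFa' z hz p hp)
          · exact Finset.mem_union_right _ (hFb' z hz p hp)) f₀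
        (fun p hp q hq => hf₀ p (Or.inl hp) q (Or.inl hq))
      refine ⟨f, hf, ?_, ?_⟩
      · rw [hfF a (Finset.mem_union_left _ hFa)]
        exact h0a
      · rw [hfF b (Finset.mem_union_right _ hFb)]
        exact h0b
    · obtain ⟨o⟩ := i3
      obtain ⟨x, hx, hlt⟩ := G4 {(o, ⟨s, hs⟩)} (Finset.singleton_nonempty _) (by
        intro r hr r' hr'
        rw [Finset.mem_singleton.1 hr, Finset.mem_singleton.1 hr', d2]
        exact bot_le)
      refine ⟨x, o, ?_⟩
      rw [G3 x o (hlt (o, ⟨s, hs⟩) (Finset.mem_singleton_self _)), hx, Finset.inf_singleton, d2,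
        sup_bot_eq]
  exact hS.realizable hθ

end Pool.Agent.Lib.MP_81b71e_al.Cd
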