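import Pool.Agent.Lib.MP_81b71e_al.Construct
import Pool.Agent.Lib.MP_81b71e_al.Cd.Ctb
import Pool.Agent.Lib.MP_81b71e_al.Cd.Lat

/-!
# Distributive algebraic lattices
-/

set_option autoImplicit false

namespace Pool.Agent.Lib.MP_81b71e_al.Cd

universe u

theorem distrib {L : Type u} [CompleteLattice L]
    (hd : ∀ x y z : L, x ⊓ (y ⊔ z) = (x ⊓ y) ⊔ (x ⊓ z)) (x y z : L) :
    (x ⊔ y) ⊓ (x ⊔ z) ≤ x ⊔ y ⊓ z := by
  rw [hd, inf_comm (x ⊔ y) x, inf_comm (x ⊔ y) z, hd z x y, inf_comm z y]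
  refine sup_le (le_sup_of_le_left inf_le_left) (sup_le ?_ le_sup_right)
  exact le_sup_of_le_left inf_le_right

/-- countably many compact elements -/
theorem countable_case (L : Type u) [CompleteLattice L] [IsCompactlyGenerated L]
    (hd : ∀ x y z : L, x ⊓ (y ⊔ z) = (x ⊓ y) ⊔ (x ⊓ z))
    (hc : {c : L | IsCompactElement c}.Countable) (L₂ : Set L) :
    Realizable L L₂ ↔ ∃ θ : L ≃o L, (∀ x, θ (θ x) = x) ∧ L₂ = {x | θ x = x} := by
  constructor
  · exact Realizable.exists_involution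
  · rintro ⟨θ, hθ, rfl⟩
    exact realizable_of_countable (distrib hd) hc θ hθ

/-- compact elements closed under meets -/
theorem arithmetic_case (L : Type u) [CompleteLattice L] [IsCompactlyGenerated L]
    (hd : ∀ x y z : L, x ⊓ (y ⊔ z) = (x ⊓ y) ⊔ (x ⊓ z))
    (hm : ∀ a b : L, IsCompactElement a → IsCompactElement b → IsCompactElement (a ⊓ b))
    (L₂ : Set L) :
    Realizable L L₂ ↔ ∃ θ : L ≃o L, (∀ x, θ (θ x) = x) ∧ L₂ = {x | θ x = x} := by
  constructor
  · exact Realizable.exists_involution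
  · rintro ⟨θ, hθ, rfl⟩
    exact realizable_of_inf (distrib hd) hm θ hθ

end Pool.Agent.Lib.MP_81b71e_al.Cd
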