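import Pool.Agent.Lib.MP_81b71e_al.Basic
import Pool.Agent.Lib.MP_81b71e_al.Cd.Ext

/-!
# Realizing a lattice with involution by a space with distances

`L` is an algebraic lattice with an involutive automorphism `θ`. If there is a space with compact
distances in `L`, with midpoints and with enough contractions, in which every compact element is a
distance, then the pair formed by `L` and the fixed points of `θ` is realizable: the algebra is the
space with all operations preserving the relations `d a b ≤ z`.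
-/

set_option autoImplicit false

namespace Pool.Agent.Lib.MP_81b71e_al.Cd

universe u

variable {L : Type u} [CompleteLattice L]

/-- A space with distances in `L`, with midpoints and enough contractions. -/
structure Space (θ : L ≃o L) {A : Type u} (d : A → A → L) : Prop where
  comp : ∀ x y, IsCompactElement (d x y)
  self : ∀ x, d x x = ⊥
  symm : ∀ x y, d y x = θ (d x y)
  tri : ∀ x y z, d x z ≤ d x y ⊔ d y z
  mid : ∀ x y c c', IsCompactElement c → IsCompactElement c' → d x y ≤ c ⊔ c' →
    ∃ m, d x m ≤ c ∧ d m y ≤ c'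
  con : ∀ a b x y, d x y ≤ d a b →
    ∃ f : A → A, (∀ p q, d (f p) (f q) ≤ d p q) ∧ d (f a) x = ⊥ ∧ d (f b) y = ⊥
  all : ∀ s, IsCompactElement s → ∃ x y, d x y = s

section
variable {A : Type u} {θ : L ≃o L} {d : A → A → L}

/-- All operations preserving all the relations `d a b ≤ z`. -/
def ops (d : A → A → L) : Ops A := fun n => {f | ∀ (z : L) (a b : Fin n → A),
  (∀ i, d (a i) (b i) ≤ z) → d (f a) (f b) ≤ z}

/-- The quasiorder `d a b ≤ z`. -/
def Space.toQord (h : Space θ d) (z : L) : Qord (ops d) :=
  ⟨fun a b => d a b ≤ z, fun a => (h.self a).trans_le bot_le,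
    fun a b c h1 h2 => (h.tri a b c).trans (sup_le h1 h2), fun _ _ hf a b hab => hf z a b hab⟩

theorem Space.apply (σ : Qord (ops d)) {f : A → A} (hf : ∀ p q, d (f p) (f q) ≤ d p q) {a b : A}
    (hab : σ.1 a b) : σ.1 (f a) (f b) := by
  have h1 : (fun x : Fin 1 → A => f (x 0)) ∈ ops d 1 := by
    intro z a b hab
    exact (hf _ _).trans (hab 0)
  exact σ.2.2.2 1 _ h1 (fun _ => a) (fun _ => b) (fun _ => hab)

theorem Space.toQord_surjective (h : Space θ d) (hsep : ∀ x y, d x y = ⊥ → x = y)
    (σ : Qord (ops d)) : ∃ z, h.toQord z = σ := by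
  classical
  have key : ∀ T : Finset L, (∀ c ∈ T, ∃ a b, σ.1 a b ∧ d a b = c) →
      ∀ x y, d x y ≤ T.sup id → σ.1 x y := by
    intro T
    induction T using Finset.induction_on with
    | empty =>
      intro _ x y hxy
      rw [Finset.sup_empty, le_bot_iff] at hxy
      rw [hsep x y hxy]
      exact σ.2.1 y
    | insert c T _ ih =>
      intro hT x y hxy
      rw [Finset.sup_insert] at hxy
      obtain ⟨a, b, hab, hc⟩ := hT c (Finset.mem_insert_self c T)
      have hT' : ∀ c ∈ T, ∃ a b, σ.1 a b ∧ d a b = c := fun c' hc' =>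
        hT c' (Finset.mem_insert_of_mem hc')
      have hcc : IsCompactElement c := by
        rw [← hc]
        exact h.comp a b
      have hTc : IsCompactElement (T.sup id) := by
        refine CompleteLattice.isCompactElement_finsetSup _ fun c' hc' => ?_
        obtain ⟨a', b', _, h'⟩ := hT' c' hc'
        show IsCompactElement c'
        rw [← h']
        exact h.comp a' b'
      obtain ⟨m, hm1, hm2⟩ := h.mid x y c (T.sup id) hcc hTc hxy
      rw [← hc] at hm1
      obtain ⟨f, hf, hfa, hfb⟩ := h.con a b x m hm1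
      have h5 := Space.apply σ hf hab
      rw [hsep _ _ hfa, hsep _ _ hfb] at h5
      exact σ.2.2.1 _ _ _ h5 (ih hT' m y hm2)
  refine ⟨sSup {c | ∃ a b, σ.1 a b ∧ d a b = c}, ?_⟩
  apply le_antisymm
  · intro a b hab
    have hab' : d a b ≤ sSup {c | ∃ a b, σ.1 a b ∧ d a b = c} := hab
    have hcomp := h.comp a b
    rw [CompleteLattice.isCompactElement_iff_exists_le_sSup_of_le_sSup] at hcomp
    obtain ⟨T, hT, hle⟩ := hcomp _ hab'
    exact key T (fun c hc => hT hc) a b hle
  · intro a b hab
    exact le_sSup ⟨a, b, hab, rfl⟩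

theorem Space.realizable_sep [Nonempty A] [IsCompactlyGenerated L] (h : Space θ d)
    (hsep : ∀ x y, d x y = ⊥ → x = y) (hθ : ∀ x, θ (θ x) = x) : Realizable L {x | θ x = x} := by
  classical
  have hle : ∀ {z w : L}, h.toQord z ≤ h.toQord w ↔ z ≤ w := by
    intro z w
    constructor
    · intro hzw
      rw [← sSup_compact_le_eq z]
      apply sSup_le
      rintro c ⟨hc, hcz⟩
      obtain ⟨a, b, rfl⟩ := h.all c hc
      exact hzw a b hcz
    · intro hzw a b hab
      exact le_trans (show d a b ≤ z from hab) hzw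
  let φ : L ≃o Qord (ops d) :=
    { toEquiv := Equiv.ofBijective h.toQord ⟨by
        intro z w hzw
        exact le_antisymm (hle.1 hzw.le) (hle.1 hzw.ge), h.toQord_surjective hsep⟩
      map_rel_iff' := hle }
  refine ⟨A, inferInstance, ops d, φ, ?_⟩
  intro x
  show θ x = x ↔ ∀ a b, d a b ≤ x → d b a ≤ x
  constructor
  · intro hx a b hab
    rw [h.symm a b]
    exact (θ.monotone hab).trans_eq hx
  · intro hx
    have h1 : θ x ≤ x := by
      apply hle.1
      intro a b hab
      have hab' : d a b ≤ θ x := hab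
      apply hx b a
      rw [h.symm a b]
      have h2 := θ.monotone hab'
      rwa [hθ] at h2
    have h2 := θ.monotone h1
    rw [hθ] at h2
    exact le_antisymm h1 h2

/-- **Realization by a space.** Points at distance `⊥` are identified. -/
theorem Space.realizable [Nonempty A] [IsCompactlyGenerated L] (h : Space θ d)
    (hθ : ∀ x, θ (θ x) = x) : Realizable L {x | θ x = x} := by
  classical
  have hbot : ∀ m n, d m n = ⊥ → d n m = ⊥ := by
    intro m n h1
    rw [h.symm m n, h1, map_bot]
  let S : Setoid A := ⟨fun x y => d x y = ⊥, ⟨h.self, fun {x y} => hbot x y, fun {x y z} h1 h2 => by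
    have h3 := h.tri x y z
    rwa [h1, h2, sup_bot_eq, le_bot_iff] at h3⟩⟩
  let r : A → A := fun x => (Quotient.mk S x).out
  have hr : ∀ x, d (r x) x = ⊥ := fun x => Quotient.mk_out (s := S) x
  have hreq : ∀ x y, d x y = ⊥ → r x = r y := by
    intro x y hxy
    have h1 : Quotient.mk S x = Quotient.mk S y := Quotient.sound hxy
    show (Quotient.mk S x).out = (Quotient.mk S y).out
    rw [h1]
  have hrl : ∀ n m, d (r n) m = d n m := by
    intro n m
    apply le_antisymm
    · refine (h.tri (r n) n m).trans ?_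
      rw [hr, bot_sup_eq]
    · refine (h.tri n (r n) m).trans ?_
      rw [hbot _ _ (hr n), bot_sup_eq]
  have hrr : ∀ n m, d m (r n) = d m n := by
    intro n m
    rw [h.symm (r n) m, hrl, ← h.symm]
  have hrep : ∀ n, r (r n) = r n := fun n => hreq _ _ (hr n)
  have hS : Space θ (A := {x : A // r x = x}) (fun x y => d x.1 y.1) := by
    refine ⟨fun x y => h.comp _ _, fun x => h.self _, fun x y => h.symm _ _,
      fun x y z => h.tri _ _ _, fun x y c c' hc hc' hxy => ?_, fun a b x y hxy => ?_,
      fun s hs => ?_⟩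
    · obtain ⟨m, hm1, hm2⟩ := h.mid x.1 y.1 c c' hc hc' hxy
      refine ⟨⟨r m, hrep m⟩, ?_, ?_⟩
      · show d x.1 (r m) ≤ c
        rw [hrr]
        exact hm1
      · show d (r m) y.1 ≤ c'
        rw [hrl]
        exact hm2
    · obtain ⟨f, hf, hfa, hfb⟩ := h.con a.1 b.1 x.1 y.1 hxy
      refine ⟨fun p => ⟨r (f p.1), hrep _⟩, fun p q => ?_, ?_, ?_⟩
      · show d (r (f p.1)) (r (f q.1)) ≤ _
        rw [hrl, hrr]
        exact hf _ _
      · show d (r (f a.1)) x.1 = ⊥
        rw [hrl]
        exact hfa
      · show d (r (f b.1)) y.1 = ⊥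
        rw [hrl]
        exact hfb
    · obtain ⟨x, y, hxy⟩ := h.all s hs
      refine ⟨⟨r x, hrep x⟩, ⟨r y, hrep y⟩, ?_⟩
      show d (r x) (r y) = s
      rw [hrl, hrr, hxy]
  have hne : Nonempty {x : A // r x = x} := by
    obtain ⟨a⟩ := (inferInstance : Nonempty A)
    exact ⟨⟨r a, hrep a⟩⟩
  refine hS.realizable_sep (fun x y hxy => ?_) hθ
  have h1 := hreq _ _ (show d x.1 y.1 = ⊥ from hxy)
  rw [x.2, y.2] at h1
  exact Subtype.ext h1

end

end Pool.Agent.Lib.MP_81b71e_al.Cd
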